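import Pool.Agent.N929.ON.Stm

/-!
# Changing the face in the middle of a good pattern (project ON, piece TOG)
-/

set_option autoImplicit false
set_option linter.unusedVariables false

open Pool.Agent.N929.ON

namespace Pool.Agent.N531.ON

theorem flip_ne (f g : ℤ × ℤ) (σ : ℤ × ℤ → Bool) (h : g ≠ f) :
    Pool.Agent.N929.ON.flip f σ g = σ g := by
  unfold Pool.Agent.N929.ON.flip
  exact Function.update_of_ne h _ _

theorem flip_same (f : ℤ × ℤ) (σ : ℤ × ℤ → Bool) :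
    Pool.Agent.N929.ON.flip f σ f = !σ f := by
  unfold Pool.Agent.N929.ON.flip
  exact Function.update_self _ _ _

theorem pt_succ (σ : ℤ × ℤ → Bool) (a : ℤ) (i : ℕ) : pt σ a (i + 1) = step σ (pt σ a i) :=
  Function.iterate_succ_apply' _ _ _

theorem pt_add (σ : ℤ × ℤ → Bool) (a : ℤ) (i t : ℕ) :
    (step σ)^[t] (pt σ a i) = pt σ a (i + t) := by
  unfold pt
  rw [← Function.iterate_add_apply, Nat.add_comm]

theorem pt_val (hinj : S_INJ) {σ : ℤ × ℤ → Bool} {a : ℤ} (h0 : Val σ (start a)) (i : ℕ) :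
    Val σ (pt σ a i) := by
  induction i with
  | zero => exact h0
  | succ i ih => rw [pt_succ]; exact (hinj σ).1 _ ih

theorem pt_inj (hinj : S_INJ) {σ : ℤ × ℤ → Bool} {a : ℤ} (h0 : Val σ (start a))
    (hret : ∀ i, 1 ≤ i → pt σ a i ≠ start a) : ∀ N N' : ℕ, pt σ a N = pt σ a N' → N = N' := by
  intro N
  induction N with
  | zero =>
    intro N' h
    by_contra hc
    exact hret N' (by omega) h.symm
  | succ N ih =>
    intro N' h
    cases N' with
    | zero => exact absurd h (hret (N + 1) (by omega))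
    | succ N' =>
      rw [pt_succ, pt_succ] at h
      rw [ih N' ((hinj σ).2 _ _ (pt_val hinj h0 N) (pt_val hinj h0 N') h)]

theorem len_eq (hinj : S_INJ) {σ : ℤ × ℤ → Bool} {a b : ℤ} {L : ℕ} (h0 : Val σ (start a))
    (hret : ∀ i, 1 ≤ i → pt σ a i ≠ start a) {N : ℕ} (hN : 1 ≤ N) (h : pt σ a N = goal L b) :
    len L a b σ = N - 1 := by
  have hset : {i | pt σ a (i + 1) = goal L b} = {N - 1} := by
    ext i
    constructor
    · intro hi
      have := pt_inj hinj h0 hret (i + 1) N (Eq.trans hi h.symm)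
      show i = N - 1
      omega
    · intro hi
      have hi' : i = N - 1 := hi
      subst hi'
      show pt σ a (N - 1 + 1) = goal L b
      rw [Nat.sub_add_cancel hN]
      exact h
  unfold len
  rw [hset]
  exact csInf_singleton _

theorem row_le (σ : ℤ × ℤ → Bool) (a : ℤ) (Y : ℤ) (hY : 0 ≤ Y) (m : ℕ)
    (h : ∀ i < m, (front (pt σ a i)).2 ≤ Y) : ∀ i ≤ m, (pt σ a i).1.2 ≤ Y := by
  intro i
  induction i with
  | zero => intro _; exact hY
  | succ i ih =>
    intro hi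
    rw [pt_succ]
    unfold step
    split_ifs with hc
    · exact h i (by omega)
    · exact ih (by omega)

theorem fronts {σ : ℤ × ℤ → Bool} {a x y : ℤ} {i p : ℕ} (hit : Hit σ a y i x)
    (hp : ∀ t < p, (front ((step σ)^[t] ((x, y), 0))).2 ≤ y + 3) :
    ∀ i' < i + p, (front (pt σ a i')).2 ≤ y + 3 := by
  intro i' hi'
  rcases Nat.lt_or_ge i' i with h | h
  · have := hit.2 i' h
    linarith
  · obtain ⟨t, rfl⟩ := Nat.exists_eq_add_of_le h
    rw [← pt_add, hit.1]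
    exact hp t (by omega)

theorem transfer {σ σ' : ℤ × ℤ → Bool} {a y : ℤ} {i p q : ℕ}
    (hf : ∀ i' < i + p, (front (pt σ a i')).2 ≤ y + 3)
    (hf' : ∀ i' < i + q, (front (pt σ' a i')).2 ≤ y + 3)
    (hs : ∀ t, pt σ' a (i + q + t) = pt σ a (i + p + t)) {y' x' : ℤ} {i' : ℕ}
    (hy' : y + 3 ≤ y') (h : Hit σ a y' i' x') : ∃ i'', Hit σ' a y' i'' x' := by
  have hle : i + p ≤ i' := by
    by_contra hc
    push Not at hc
    have h1 := hf i' hc
    rw [h.1] at h1
    have h2 : (front (((x', y'), 0) : St)).2 = y' + 1 := rfl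
    rw [h2] at h1
    linarith
  obtain ⟨t, rfl⟩ := Nat.exists_eq_add_of_le hle
  refine ⟨i + q + t, ?_, ?_⟩
  · rw [hs t]; exact h.1
  · intro i'' hi''
    rcases Nat.lt_or_ge i'' (i + q) with hlt | hge
    · exact (hf' i'' hlt).trans hy'
    · obtain ⟨t', rfl⟩ := Nat.exists_eq_add_of_le hge
      rw [hs t']
      exact h.2 _ (by omega)

theorem good_congr (W : ℕ) (σ σ' : ℤ × ℤ → Bool) (x y : ℤ)
    (h : ∀ f : ℤ × ℤ, f.2 = y + 1 ∨ f.2 = y + 2 ∨ f.2 = y + 3 → σ' f = σ f) :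
    Good W σ' x y ↔ Good W σ x y := by
  have h1 : ∀ x' : ℤ, σ' (x', y + 1) = σ (x', y + 1) := fun x' => h _ (Or.inl rfl)
  have h2 : ∀ x' : ℤ, σ' (x', y + 2) = σ (x', y + 2) := fun x' => h _ (Or.inr (Or.inl rfl))
  have h3 : ∀ x' : ℤ, σ' (x', y + 3) = σ (x', y + 3) := fun x' => h _ (Or.inr (Or.inr rfl))
  unfold Good
  simp only [h1, h2, h3]

theorem tf_row (W : ℕ) (x y : ℤ) : (tf W x y).2 = y + 2 := by
  unfold tf
  split_ifs <;> rfl

theorem lng_congr (W : ℕ) (σ σ' : ℤ × ℤ → Bool) (x y : ℤ)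
    (h : ∀ f : ℤ × ℤ, f.2 = y + 1 ∨ f.2 = y + 2 ∨ f.2 = y + 3 → σ' f = σ f) :
    Lng W σ' x y ↔ Lng W σ x y := by
  have h1 := h (tf W x y) (Or.inr (Or.inl (tf_row W x y)))
  unfold Lng
  rw [h1]

/-- **Changing the face in the middle of a good pattern.** -/
theorem tog (hinj : S_INJ) (hexit : S_EXIT) (hhit : S_HIT) (hpass : S_PASS) (hsurg : S_SURG)
    (hedg : S_EDG) : S_TOG := by
  classical
  intro W L a b σ hpar hbdy j i x hj hit hgood σ' hσ'
  obtain ⟨hL, ha0, haW, hb0, hbW⟩ := hpar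
  have hpar' : Par W L a b := ⟨hL, ha0, haW, hb0, hbW⟩
  have hy3 : ((3 * j : ℕ) : ℤ) = 3 * (j : ℤ) := by push_cast; ring
  obtain ⟨y, hy⟩ : ∃ y : ℤ, y = ((3 * j : ℕ) : ℤ) := ⟨_, rfl⟩
  rw [← hy] at hit hgood hσ' hy3 ⊢
  have hj0 : (0 : ℤ) ≤ (j : ℤ) := Int.natCast_nonneg j
  have hy0 : 0 ≤ y := by omega
  have hyL : y + 3 ≤ (L : ℤ) := by
    have : ((3 * j + 3 : ℕ) : ℤ) ≤ (L : ℤ) := by exact_mod_cast hj
    push_cast at this
    omega
  have hWpos : (0 : ℤ) < W := by linarith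
  -- the column
  have hcol : 0 ≤ x ∧ x ≤ W := by
    obtain ⟨i₂, x₂, h1, h2, h3⟩ := hhit.1 W L a b σ hpar' hbdy y hy0 (by linarith)
    obtain ⟨_, rfl⟩ := hhit.2.2 σ a y i i₂ x x₂ hit h3
    exact ⟨Int.natCast_nonneg _, by exact_mod_cast h2⟩
  obtain ⟨hx0, hxW⟩ := hcol
  set f := tf W x y with hf
  have hfrow : f.2 = y + 2 := tf_row W x y
  have hfdom : f ∈ Dom W L := by
    unfold Dom
    rw [Finset.mem_product, Finset.mem_Icc, Finset.mem_Icc, hfrow]
    have hfx : 1 ≤ f.1 ∧ f.1 ≤ W := by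
      rw [hf]
      unfold tf
      split_ifs with hc
      · show 1 ≤ x + 1 ∧ x + 1 ≤ W
        omega
      · show 1 ≤ x ∧ x ≤ W
        omega
    exact ⟨hfx, by omega, by omega⟩
  have hdiff : ∀ g, g ≠ f → σ' g = σ g := by
    intro g hg
    rw [hσ']
    exact flip_ne f g σ hg
  have hsame : σ' f = !σ f := by
    rw [hσ']
    exact flip_same f σ
  have hbdy' : Bdy W L a b σ' := by
    intro g hg
    rw [hdiff g (fun h => hg (h ▸ hfdom))]
    exact hbdy g hg
  have hloc : ∀ g : ℤ × ℤ, g.2 ≤ y → σ' g = σ g := by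
    intro g hg
    refine hdiff g fun h => ?_
    rw [h, hfrow] at hg
    linarith
  obtain ⟨hit', hpteq⟩ := hhit.2.1 σ σ' a y i x hy0 hit hloc
  have hgood' : Good W σ' x y := by
    have hgd := hgood
    unfold Good at hgd ⊢
    by_cases hc : x < W
    · rw [if_pos hc] at hgd ⊢
      have hfe : f = (x + 1, y + 2) := by rw [hf]; unfold tf; rw [if_pos hc]
      have hne : ∀ u v : ℤ, (u ≠ x + 1 ∨ v ≠ y + 2) → σ' (u, v) = σ (u, v) := by
        intro u v huv
        refine hdiff _ fun h => ?_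
        rw [hfe, Prod.mk.injEq] at h
        omega
      rw [hne x (y + 1) (by omega), hne x (y + 2) (by omega), hne x (y + 3) (by omega),
        hne (x + 1) (y + 1) (by omega), hne (x + 2) (y + 1) (by omega),
        hne (x + 2) (y + 2) (by omega), hne (x + 1) (y + 3) (by omega)]
      exact hgd
    · rw [if_neg hc] at hgd ⊢
      have hfe : f = (x, y + 2) := by rw [hf]; unfold tf; rw [if_neg hc]
      have hne : ∀ u v : ℤ, (u ≠ x ∨ v ≠ y + 2) → σ' (u, v) = σ (u, v) := by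
        intro u v huv
        refine hdiff _ fun h => ?_
        rw [hfe, Prod.mk.injEq] at h
        omega
      rw [hne x (y + 1) (by omega), hne (x - 1) (y + 2) (by omega),
        hne (x - 1) (y + 3) (by omega), hne x (y + 3) (by omega),
        hne (x + 1) (y + 1) (by omega), hne (x + 1) (y + 2) (by omega),
        hne (x + 1) (y + 3) (by omega)]
      exact hgd
  have hlng : Lng W σ' x y ↔ ¬ Lng W σ x y := by
    unfold Lng
    rw [← hf, hsame]
    split_ifs <;> cases σ f <;> simp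
  -- the passages
  obtain ⟨p, hp⟩ : ∃ p : ℕ, p = (if Lng W σ x y then 8 else 6) := ⟨_, rfl⟩
  obtain ⟨q, hq⟩ : ∃ q : ℕ, q = (if Lng W σ' x y then 8 else 6) := ⟨_, rfl⟩
  obtain ⟨hp1, hp2, hp3⟩ := hpass W σ x y hgood p hp
  obtain ⟨hq1, hq2, hq3⟩ := hpass W σ' x y hgood' q hq
  obtain ⟨hv, ⟨N, hN1, hN⟩, hret⟩ := hexit W L a b σ hpar' hbdy
  obtain ⟨hv', _, hret'⟩ := hexit W L a b σ' hpar' hbdy'
  obtain ⟨hs, hloops⟩ := hsurg σ σ' f hdiff (start a) ((x, y), 0) ((x, y + 3), 0) i p q hv hv'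
    hret hret' hit.1 hit'.1 hp1 hq1 hp3 hq3
  have hs' : ∀ t, pt σ' a (i + q + t) = pt σ a (i + p + t) := hs
  have hfr := fronts hit hp2
  have hfr' := fronts hit' hq2
  refine ⟨hfdom, hbdy', hit', hgood', hlng, ?_, hloops, ?_⟩
  · intro hnl
    refine ⟨?_, ?_⟩
    · have hNgt : i + p < N := by
        by_contra hc
        push Not at hc
        have h1 := row_le σ a (y + 3) (by omega) (i + p) hfr N hc
        rw [hN] at h1
        have h2 : (goal L b).1.2 = (L : ℤ) + 1 := rfl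
        rw [h2] at h1
        omega
      obtain ⟨t, rfl⟩ := Nat.exists_eq_add_of_lt hNgt
      have h1 : pt σ' a (i + q + (t + 1)) = goal L b := by
        rw [hs' (t + 1)]
        exact hN
      rw [len_eq hinj hv hret hN1 hN, len_eq hinj hv' hret' (by omega) h1]
      rw [if_neg hnl] at hp
      rw [if_pos (hlng.2 hnl)] at hq
      omega
    · rw [hσ']
      exact hedg W L σ x y hx0 hxW hy0 hyL (by omega) hgood hnl
  · intro j' hjj' hj'L x'
    have hy3' : ((3 * j' : ℕ) : ℤ) = 3 * (j' : ℤ) := by push_cast; ring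
    obtain ⟨y', hy'⟩ : ∃ y' : ℤ, y' = ((3 * j' : ℕ) : ℤ) := ⟨_, rfl⟩
    rw [← hy'] at hy3' ⊢
    have hj'0 : (0 : ℤ) ≤ (j' : ℤ) := Int.natCast_nonneg j'
    have hy'0 : 0 ≤ y' := by omega
    have hjj : (j' : ℤ) ≠ (j : ℤ) := by exact_mod_cast hjj'
    have hcong : ∀ g : ℤ × ℤ, g.2 = y' + 1 ∨ g.2 = y' + 2 ∨ g.2 = y' + 3 → σ' g = σ g := by
      intro g hg
      refine hdiff g fun h => ?_
      rw [h, hfrow] at hg
      omega
    refine ⟨?_, good_congr W σ σ' x' y' hcong, lng_congr W σ σ' x' y' hcong⟩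
    rcases lt_or_gt_of_ne hjj with hlt | hgt
    · have hl : ∀ g : ℤ × ℤ, g.2 ≤ y' → σ' g = σ g := fun g hg => hloc g (by omega)
      constructor
      · rintro ⟨i', h⟩
        exact ⟨i', (hhit.2.1 σ' σ a y' i' x' hy'0 h (fun g hg => (hl g hg).symm)).1⟩
      · rintro ⟨i', h⟩
        exact ⟨i', (hhit.2.1 σ σ' a y' i' x' hy'0 h hl).1⟩
    · have hyy : y + 3 ≤ y' := by omega
      constructor
      · rintro ⟨i', h⟩
        exact transfer hfr' hfr (fun t => (hs' t).symm) hyy h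
      · rintro ⟨i', h⟩
        exact transfer hfr hfr' hs' hyy h

end Pool.Agent.N531.ON
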